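import Pool.Agent.N728.QU.Def
import Pool.Agent.N547.QG.U0
import Pool.Agent.N547.QG.U1

set_option autoImplicit false

/-! # Project QU, piece UPP: upper bound sieve in a box, uniformly in `c`.
Adapted from `Pool/Agent/N547/QG/U0.lean` and `Pool/Agent/N547/QG/U1.lean` (helper547). -/

namespace Pool.Agent.N49.QU

open Finset Pool.Agent.N728.QL Pool.Agent.N728.QG

noncomputable section

section U0

open Pool.Agent.N383.QL

open Classical in
theorem t_U0u (h1 : Pool.Agent.N728.QL.S_FLC) (h2 : S_MER) : Pool.Agent.N728.QU.S_U0u := by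
  intro D hD
  obtain ⟨K, hK, hF⟩ := h1
  obtain ⟨C, hC, -, hM⟩ := h2
  have hD0 : (1 : ℝ) ≤ D := by exact_mod_cast hD
  have hDn : 3 * D ≠ 0 := by omega
  refine ⟨35, by norm_num, (3 * D) * (K * K + 1), ⌈(24 * C + 24 + 3 * C * D ^ 2) ^ (3 * D)⌉₊, ?_⟩
  intro B hB c _ _ z hz hzk d1 d2 X1 X2 I1 I2 hd1 hd2 hd1k hd2k hX hBX hX2 hI hBI hI2
  have hcast : ∀ u v : ℕ, ((u * v : ℕ) : ℤ) + c = (u : ℤ) * v + c := by
    intro u v
    push_cast
    ring
  simp only [hcast]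
  -- the parameter
  have hBr : (24 * C + 24 + 3 * C * D ^ 2) ^ (3 * D) ≤ (B : ℝ) :=
    (Nat.le_ceil _).trans (by exact_mod_cast hB)
  have hB0 : (0 : ℝ) < B := lt_of_lt_of_le (by positivity) hBr
  set β : ℝ := (B : ℝ) ^ (1 / ((3 * D : ℕ) : ℝ)) with hβ
  have hβ0 : 0 < β := by positivity
  have hβ12 : β ^ (3 * D) = B := by
    rw [hβ, ← Real.rpow_natCast, ← Real.rpow_mul hB0.le, one_div_mul_cancel, Real.rpow_one]
    exact_mod_cast hDn
  have hβC' : 24 * C + 24 + 3 * C * D ^ 2 ≤ β := by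
    rw [← pow_le_pow_iff_left₀ (by positivity) hβ0.le hDn, hβ12]
    exact hBr
  have hCD : 0 ≤ 3 * C * (D : ℝ) ^ 2 := by positivity
  have hβC : 24 * C + 24 ≤ β := by linarith
  have hβD : 3 * C * (D : ℝ) ^ 2 ≤ β := by linarith
  have hpow : ∀ x : ℝ, 0 ≤ x → x ^ (3 * D) ≤ B → x ≤ β := by
    intro x hx h
    rw [← pow_le_pow_iff_left₀ hx hβ0.le hDn, hβ12]
    exact h
  have fz : (z : ℝ) ^ (K * K + 1) ≤ β := by
    refine hpow _ (by positivity) ?_
    rw [← pow_mul, mul_comm]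
    exact_mod_cast hzk
  have fd1 : (d1 : ℝ) ≤ β := by
    refine hpow _ (by positivity) ?_
    have : d1 ^ (3 * D) ≤ d1 ^ ((3 * D) * (K * K + 1)) :=
      Nat.pow_le_pow_right hd1 (Nat.le_mul_of_pos_right _ (by positivity))
    exact_mod_cast this.trans hd1k
  have fd2 : (d2 : ℝ) ≤ β := by
    refine hpow _ (by positivity) ?_
    have : d2 ^ (3 * D) ≤ d2 ^ ((3 * D) * (K * K + 1)) :=
      Nat.pow_le_pow_right hd2 (Nat.le_mul_of_pos_right _ (by positivity))
    exact_mod_cast this.trans hd2k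
  have hcube : ∀ a b : ℕ, a ≤ b → B ≤ (b - a) ^ D → β ^ 3 ≤ (b : ℝ) - a := by
    intro a b hab h
    have h3 : (B : ℝ) ≤ ((b : ℝ) - a) ^ D := by
      rw [← Nat.cast_sub hab]
      exact_mod_cast h
    have h4 : (0 : ℝ) ≤ (b : ℝ) - a := by
      have : (a : ℝ) ≤ b := by exact_mod_cast hab
      linarith
    rw [← pow_le_pow_iff_left₀ (by positivity) h4 (show D ≠ 0 by omega), ← pow_mul, hβ12]
    exact h3
  have fX := hcube X1 X2 hX hBX
  have fI := hcube I1 I2 hI hBI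
  have hβ1 : 1 ≤ β := by linarith
  have hβ2 : β ≤ β ^ 2 := by nlinarith
  have hβ3 : β ^ 2 * C ≤ β ^ 3 := by nlinarith [pow_pos hβ0 2]
  have hβ3' : β ^ 2 * (24 * C) ≤ β ^ 3 := by nlinarith [pow_pos hβ0 2]
  have flog : Real.log B ≤ 3 * D * β := by
    rw [← hβ12, Real.log_pow]
    have := Real.log_le_sub_one_of_pos hβ0
    push_cast
    have h3 : (0 : ℝ) ≤ 3 * D := by positivity
    exact mul_le_mul_of_nonneg_left (by linarith) h3
  have hd1r : (0 : ℝ) < d1 := by exact_mod_cast hd1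
  have hd2r : (0 : ℝ) < d2 := by exact_mod_cast hd2
  have hLX : 0 ≤ (X2 : ℝ) - X1 := le_trans (by positivity) fX
  have hLI : 0 ≤ (I2 : ℝ) - I1 := le_trans (by positivity) fI
  -- quotients
  have hqI : β ^ 2 ≤ ((I2 : ℝ) - I1) / d2 := by
    rw [le_div_iff₀ hd2r]
    calc β ^ 2 * d2 ≤ β ^ 2 * β := by gcongr
      _ = β ^ 3 := by ring
      _ ≤ _ := fI
  have hqX : β ^ 2 ≤ ((X2 : ℝ) - X1) / d1 := by
    rw [le_div_iff₀ hd1r]
    calc β ^ 2 * d1 ≤ β ^ 2 * β := by gcongr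
      _ = β ^ 3 := by ring
      _ ≤ _ := fX
  have hβ21 : 1 ≤ β ^ 2 := by nlinarith
  -- the inner sum
  have hin : ∀ u ∈ (Ioc X1 X2).filter (fun u => d1 ∣ u),
      ∑ v ∈ (Ioc I1 I2).filter (fun v => d2 ∣ v), lz z ((u : ℤ) * v + c) ≤
        5 * (((I2 : ℝ) - I1) / Nat.totient d2) * W u := by
    intro u hu
    rw [mem_filter, mem_Ioc] at hu
    have hu0 : u ≠ 0 := by omega
    have hm : u * d2 ≠ 0 := mul_ne_zero hu0 (by omega)
    have e1 : ∑ v ∈ (Ioc I1 I2).filter (fun v => d2 ∣ v), lz z ((u : ℤ) * v + c) =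
        ((((Ioc I1 I2).filter (fun v => d2 ∣ v)).filter
          (fun v : ℕ => Rg 0 z ((u : ℤ) * v + c))).card : ℝ) * (VW 0 z)⁻¹ := by
      unfold lz
      rw [← sum_filter, sum_const, nsmul_eq_mul]
    set S0 := ((Ioc I1 I2).filter (fun v => d2 ∣ v)).filter
          (fun v : ℕ => Rg 0 z ((u : ℤ) * v + c)) with hS0
    have e2 : (S0.image (fun v : ℕ => ((v / d2 : ℕ) : ℤ))).card = S0.card := by
      refine card_image_of_injOn ?_
      intro v hv v' hv' hvv
      rw [mem_coe, hS0, mem_filter, mem_filter] at hv hv'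
      obtain ⟨k, rfl⟩ := hv.1.2
      obtain ⟨l, rfl⟩ := hv'.1.2
      dsimp only at hvv
      rw [Nat.mul_div_cancel_left k hd2, Nat.mul_div_cancel_left l hd2] at hvv
      have : k = l := by exact_mod_cast hvv
      rw [this]
    have e3 := inner hF c z (u * d2) hz hm (I1 / d2) (I2 / d2) (Nat.div_le_div_right hI)
      (S0.image (fun v : ℕ => ((v / d2 : ℕ) : ℤ))) (by
        intro t ht
        rw [mem_image] at ht
        obtain ⟨v, hv, rfl⟩ := ht
        rw [hS0, mem_filter, mem_filter, mem_Ioc] at hv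
        obtain ⟨⟨⟨h3, h4⟩, k, rfl⟩, h5⟩ := hv
        rw [Nat.mul_div_cancel_left k hd2]
        refine ⟨⟨?_, ?_⟩, ?_⟩
        · have : I1 / d2 < k := by
            rw [Nat.div_lt_iff_lt_mul hd2, mul_comm]; exact h3
          exact_mod_cast this
        · have : k ≤ I2 / d2 := by
            rw [Nat.le_div_iff_mul_le hd2, mul_comm]; exact h4
          exact_mod_cast this
        · convert h5 using 2
          push_cast
          ring)
    rw [e2] at e3
    rw [e1]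
    have hV := Pool.Agent.N728.QL.VW_pos 0 z
    have e4 : (VW 0 z)⁻¹ * (z : ℝ) ^ (K * K) ≤ ((I2 : ℝ) - I1) / d2 := by
      have h3 := (hM z hz).2
      have hz0 : (0 : ℝ) < z := by positivity
      have h4 : Real.log z ≤ z := (Real.log_le_sub_one_of_pos hz0).trans (by linarith)
      calc (VW 0 z)⁻¹ * (z : ℝ) ^ (K * K) ≤ (C * z) * (z : ℝ) ^ (K * K) := by
            gcongr
            exact h3.trans (by gcongr)
        _ = C * (z : ℝ) ^ (K * K + 1) := by rw [pow_succ]; ring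
        _ ≤ C * β := by gcongr
        _ ≤ β ^ 2 := by nlinarith
        _ ≤ _ := hqI
    have e5 : W (u * d2) ≤ W u * W d2 := W_mul hu0 (by omega)
    have e6 := div_sub (a := I1) (b := I2) hd2
    have e7 : 0 ≤ ((I2 / d2 : ℕ) : ℝ) - (I1 / d2 : ℕ) := by
      have : ((I1 / d2 : ℕ) : ℝ) ≤ (I2 / d2 : ℕ) := by
        exact_mod_cast Nat.div_le_div_right hI
      linarith
    have hWu := one_le_W u
    have hWd := one_le_W d2
    have hWud : 1 ≤ W u * W d2 := by nlinarith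
    calc (S0.card : ℝ) * (VW 0 z)⁻¹
        ≤ (2 * (((I2 / d2 : ℕ) : ℝ) - (I1 / d2 : ℕ)) * (VW 0 z * W (u * d2)) +
            (z : ℝ) ^ (K * K)) * (VW 0 z)⁻¹ := by gcongr
      _ = 2 * (((I2 / d2 : ℕ) : ℝ) - (I1 / d2 : ℕ)) * W (u * d2) +
            (VW 0 z)⁻¹ * (z : ℝ) ^ (K * K) := by field_simp
      _ ≤ 2 * (((I2 / d2 : ℕ) : ℝ) - (I1 / d2 : ℕ)) * (W u * W d2) +
            ((I2 : ℝ) - I1) / d2 := by gcongr
      _ ≤ 2 * (2 * (((I2 : ℝ) - I1) / d2)) * (W u * W d2) +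
            ((I2 : ℝ) - I1) / d2 * (W u * W d2) := by
          have h3 : ((I2 / d2 : ℕ) : ℝ) - (I1 / d2 : ℕ) ≤ 2 * (((I2 : ℝ) - I1) / d2) := by
            linarith
          have h4 : ((I2 : ℝ) - I1) / d2 ≤ ((I2 : ℝ) - I1) / d2 * (W u * W d2) :=
            le_mul_of_one_le_right (by linarith) hWud
          gcongr
      _ = 5 * (((I2 : ℝ) - I1) / d2 * W d2) * W u := by ring
      _ = _ := by rw [W_div hd2]
  -- the outer sum
  have hout : ∑ u ∈ (Ioc X1 X2).filter (fun u => d1 ∣ u), W u ≤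
      7 * (((X2 : ℝ) - X1) / Nat.totient d1) := by
    have e1 : ∑ u ∈ (Ioc X1 X2).filter (fun u => d1 ∣ u), W u =
        ∑ k ∈ Ioc (X1 / d1) (X2 / d1), W (d1 * k) := by
      refine sum_nbij' (fun u => u / d1) (fun k => d1 * k) ?_ ?_ ?_ ?_ ?_
      · intro u hu
        rw [mem_filter, mem_Ioc] at hu
        obtain ⟨⟨h3, h4⟩, k, rfl⟩ := hu
        rw [mem_Ioc, Nat.mul_div_cancel_left k hd1]
        constructor
        · rw [Nat.div_lt_iff_lt_mul hd1, mul_comm]; exact h3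
        · rw [Nat.le_div_iff_mul_le hd1, mul_comm]; exact h4
      · intro k hk
        rw [mem_Ioc, Nat.div_lt_iff_lt_mul hd1, Nat.le_div_iff_mul_le hd1] at hk
        rw [mem_filter, mem_Ioc]
        exact ⟨⟨by rw [mul_comm]; exact hk.1, by rw [mul_comm]; exact hk.2⟩, dvd_mul_right _ _⟩
      · intro u hu
        rw [mem_filter] at hu
        exact Nat.mul_div_cancel' hu.2
      · intro k _
        exact Nat.mul_div_cancel_left k hd1
      · intro u hu
        rw [mem_filter] at hu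
        rw [Nat.mul_div_cancel' hu.2]
    have e2 := sumW (X1 / d1) (X2 / d1) (Nat.div_le_div_right hX)
    have e3 := div_sub (a := X1) (b := X2) hd1
    have e4 : 2 ≤ X2 / d1 := by
      rw [Nat.le_div_iff_mul_le hd1]
      have h3 : (2 : ℝ) * d1 ≤ X2 := by
        have h4 : (0 : ℝ) ≤ X1 := Nat.cast_nonneg _
        have h5 : 2 * β ≤ β ^ 3 := by nlinarith
        linarith
      exact_mod_cast h3
    have e5 : (VW 0 (X2 / d1))⁻¹ ≤ ((X2 : ℝ) - X1) / d1 := by
      have h3 := (hM _ e4).2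
      have h4 : Real.log ((X2 / d1 : ℕ) : ℝ) ≤ D * Real.log B := by
        have h5 : ((X2 / d1 : ℕ) : ℝ) ≤ (B : ℝ) ^ D := by
          exact_mod_cast (Nat.div_le_self _ _).trans hX2
        have h6 : (0 : ℝ) < ((X2 / d1 : ℕ) : ℝ) := by
          have : 0 < X2 / d1 := by omega
          exact_mod_cast this
        have := Real.log_le_log h6 h5
        rwa [Real.log_pow] at this
      calc (VW 0 (X2 / d1))⁻¹ ≤ C * (D * (3 * D * β)) := by
            refine h3.trans ?_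
            have h6 : (D : ℝ) * Real.log B ≤ D * (3 * D * β) :=
              mul_le_mul_of_nonneg_left flog (by positivity)
            exact mul_le_mul_of_nonneg_left (h4.trans h6) (by linarith)
        _ = (3 * C * (D : ℝ) ^ 2) * β := by ring
        _ ≤ β * β := mul_le_mul_of_nonneg_right hβD hβ0.le
        _ = β ^ 2 := by ring
        _ ≤ _ := hqX
    have hW1 := one_le_W d1
    rw [e1]
    calc ∑ k ∈ Ioc (X1 / d1) (X2 / d1), W (d1 * k)
        ≤ ∑ k ∈ Ioc (X1 / d1) (X2 / d1), W d1 * W k := by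
          refine sum_le_sum fun k hk => W_mul (by omega) ?_
          rw [mem_Ioc] at hk
          exact ((Nat.zero_le _).trans_lt hk.1).ne'
      _ = W d1 * ∑ k ∈ Ioc (X1 / d1) (X2 / d1), W k := by rw [mul_sum]
      _ ≤ W d1 * (7 * (((X2 : ℝ) - X1) / d1)) := by
          gcongr
          linarith
      _ = 7 * (((X2 : ℝ) - X1) / d1 * W d1) := by ring
      _ = _ := by rw [W_div hd1]
  have hφ1 : (0 : ℝ) < Nat.totient d1 := by exact_mod_cast Nat.totient_pos.2 hd1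
  have hφ2 : (0 : ℝ) < Nat.totient d2 := by exact_mod_cast Nat.totient_pos.2 hd2
  calc ∑ u ∈ (Ioc X1 X2).filter (fun u => d1 ∣ u),
        ∑ v ∈ (Ioc I1 I2).filter (fun v => d2 ∣ v), lz z ((u : ℤ) * v + c)
      ≤ ∑ u ∈ (Ioc X1 X2).filter (fun u => d1 ∣ u),
        5 * (((I2 : ℝ) - I1) / Nat.totient d2) * W u := sum_le_sum hin
    _ = 5 * (((I2 : ℝ) - I1) / Nat.totient d2) *
        ∑ u ∈ (Ioc X1 X2).filter (fun u => d1 ∣ u), W u := by rw [mul_sum]
    _ ≤ 5 * (((I2 : ℝ) - I1) / Nat.totient d2) * (7 * (((X2 : ℝ) - X1) / Nat.totient d1)) := by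
        gcongr
    _ = _ := by field_simp; ring

end U0

section U1

open Pool.Agent.N835.QL

/-- `n / φ(n)` is bounded for the tame integers -/
theorem G_tame {s0 : ℕ} {c : ℤ} (hc : Pool.Agent.N728.QU.Tame s0 c) :
    G c.natAbs ≤ Real.exp (2 * ((max s0 1 : ℕ) + 1)) := by
  obtain ⟨hc0, hT⟩ := hc
  have hca : c.natAbs ≠ 0 := Int.natAbs_ne_zero.2 hc0
  rw [G_eq hca]
  set s : ℕ := max s0 1 with hs
  have hs1 : 1 ≤ s := le_max_right _ _
  have h1 := hT s (le_max_left _ _)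
  have h1' : ∑ p ∈ c.natAbs.primeFactors.filter (fun p => s < p), 1 / (p : ℝ) ≤ 1 := by
    refine h1.trans ?_
    rw [div_le_one (Real.sqrt_pos.2 (by exact_mod_cast hs1))]
    exact Real.one_le_sqrt.2 (by exact_mod_cast hs1)
  have h2 : ∑ p ∈ c.natAbs.primeFactors.filter (fun p => ¬ s < p), 1 / (p : ℝ) ≤ s := by
    calc ∑ p ∈ c.natAbs.primeFactors.filter (fun p => ¬ s < p), 1 / (p : ℝ)
        ≤ ∑ p ∈ Icc 1 s, 1 / (p : ℝ) := by
          refine sum_le_sum_of_subset_of_nonneg ?_ (fun _ _ _ => by positivity)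
          intro p hp
          rw [mem_filter] at hp
          have := (Nat.prime_of_mem_primeFactors hp.1).pos
          rw [mem_Icc]
          omega
      _ ≤ ∑ p ∈ Icc 1 s, (1 : ℝ) := by
          refine sum_le_sum fun p hp => ?_
          rw [mem_Icc] at hp
          rw [div_le_one (by exact_mod_cast hp.1)]
          exact_mod_cast hp.1
      _ = s := by simp
  have h3 : ∑ p ∈ c.natAbs.primeFactors, 1 / (p : ℝ) ≤ s + 1 := by
    rw [← sum_filter_add_sum_filter_not c.natAbs.primeFactors (fun p => s < p)]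
    linarith
  calc ∏ p ∈ c.natAbs.primeFactors, (1 - 1 / (p : ℝ))⁻¹
      ≤ ∏ p ∈ c.natAbs.primeFactors, Real.exp (2 * (1 / (p : ℝ))) := by
        refine prod_le_prod (fun p hp => ?_) fun p hp => ?_
        · exact (inv_pos.2 (fac_pos (Nat.prime_of_mem_primeFactors hp).two_le)).le
        · have hp2 := (Nat.prime_of_mem_primeFactors hp).two_le
          have hp2' : (2 : ℝ) ≤ p := by exact_mod_cast hp2
          have hx : 1 / (p : ℝ) ≤ 1 / 2 := one_div_le_one_div_of_le (by norm_num) hp2'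
          have hx0 : 0 ≤ 1 / (p : ℝ) := by positivity
          have h4 : (1 - 1 / (p : ℝ))⁻¹ ≤ 1 + 2 * (1 / (p : ℝ)) := by
            rw [inv_le_iff_one_le_mul₀ (fac_pos hp2)]
            nlinarith
          refine h4.trans ?_
          have := Real.add_one_le_exp (2 * (1 / (p : ℝ)))
          linarith
    _ = Real.exp (2 * ∑ p ∈ c.natAbs.primeFactors, 1 / (p : ℝ)) := by
        rw [← Real.exp_sum, mul_sum]
    _ ≤ Real.exp (2 * (s + 1)) := by
        apply Real.exp_le_exp.2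
        linarith

/-- U1u -/
theorem t_U1u (h1 : Pool.Agent.N728.QL.S_FLC) (_h2 : S_MER) (s0 : ℕ) :
    Pool.Agent.N728.QU.S_U1u s0 := by
  intro D hD
  obtain ⟨K, -, hF⟩ := h1
  have hub := ub hF
  have hrc : ∀ {w y z1 : ℕ}, 2 ≤ z1 → y ≤ z1 → ∀ N : ℕ, _ := fun {w y z1} h h' N =>
    rough_count hub (w := w) h h' N
  refine ⟨24 * Real.exp (2 * ((max s0 1 : ℕ) + 1)) + 1, by positivity, D * (K * K + 3), 1, ?_⟩
  intro B hB c hcT _ z hz hzB w y M X I1 I2 hw hwy hyB hMB hM hX hX2 hI hIB hI2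
  have hc : c ≠ 0 := hcT.1
  have hca : c.natAbs ≠ 0 := Int.natAbs_ne_zero.2 hc
  have hGc : 0 < G c.natAbs := lt_of_lt_of_le one_pos (one_le_G hca)
  have hGT := G_tame hcT
  have hcast : ∀ x t : ℕ, ((M * x * t : ℕ) : ℤ) + c = (M : ℤ) * x * t + c := by
    intro x t
    push_cast
    ring
  simp only [hcast]
  have hrg0 : ∀ n : ℤ, 0 ≤ rg w y n := by
    intro n; unfold rg; split_ifs <;> norm_num
  have hrg1 : ∀ n : ℤ, rg w y n ≤ 1 := by
    intro n; unfold rg; split_ifs <;> norm_num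
  set z1 := max z y with hz1
  have hzz : z ≤ z1 := le_max_left _ _
  have hyz : y ≤ z1 := le_max_right _ _
  have hz1B : z1 ^ (D * (K * K + 3)) ≤ B := by
    rcases max_cases z y with h | h
    · rw [hz1, h.1]; exact hzB
    · rw [hz1, h.1]; exact hyB
  have hM0 : M ≠ 0 := by
    rintro rfl
    have h3 := Nat.eq_zero_of_zero_dvd hM
    unfold PP at h3
    rw [prod_eq_zero_iff] at h3
    obtain ⟨p, hp, h4⟩ := h3
    have := (mem_filter.1 hp).2.pos
    omega
  have hroot : ∀ {Y : ℕ}, B ≤ Y ^ D → z1 ^ (K * K + 3) ≤ Y := by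
    intro Y hY
    have h3 : (z1 ^ (K * K + 3)) ^ D ≤ Y ^ D := by
      rw [← pow_mul, mul_comm]
      exact hz1B.trans hY
    exact (Nat.pow_le_pow_iff_left (by omega)).1 h3
  have hXr := hroot hX
  have hIr := hroot hIB
  have hy1 : 1 ≤ y := by omega
  have hV := Pool.Agent.N728.QL.VW_pos w y
  have hVi := inv_le_VW w hy1
  have hGM : 1 ≤ G M := one_le_G hM0
  have hI' : (0 : ℝ) ≤ (I2 : ℝ) - I1 := by
    have : (I1 : ℝ) ≤ I2 := by exact_mod_cast hI
    linarith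
  -- the sum over `x`
  have hx : ∀ x ∈ Icc 1 X, ∑ t ∈ Ioc I1 I2, rg w y x * rg w y t * lz z ((M : ℤ) * x * t + c) ≤
      2 * (((I2 : ℝ) - I1) * (VW w y * G M * G c.natAbs)) * (rg w y x * G x) +
        z * (z1 : ℝ) ^ (K * K) := by
    intro x hx
    rw [mem_Icc] at hx
    have h3 := fixed_x (w := w) hub hc hz hzz hyz (N := M * x) (Nat.mul_ne_zero hM0 (by omega)) hI
    have h4 : ∑ t ∈ Ioc I1 I2, rg w y x * rg w y t * lz z ((M : ℤ) * x * t + c) =
        rg w y x * ∑ t ∈ Ioc I1 I2, rg w y t * lz z (((M * x : ℕ) : ℤ) * t + c) := by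
      rw [mul_sum]
      refine sum_congr rfl fun t _ => ?_
      push_cast
      ring
    rw [h4]
    refine (mul_le_mul_of_nonneg_left h3 (hrg0 x)).trans ?_
    rw [mul_add]
    have h5 : rg w y x * (z * (z1 : ℝ) ^ (K * K)) ≤ z * (z1 : ℝ) ^ (K * K) :=
      mul_le_of_le_one_left (by positivity) (hrg1 x)
    have h6 := G_mul_le hM0 (b := x) (by omega)
    have h7 : 2 * (((I2 : ℝ) - I1) * (VW w y * G (M * x) * G c.natAbs)) ≤
        2 * (((I2 : ℝ) - I1) * (VW w y * (G M * G x) * G c.natAbs)) := by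
      have : VW w y * G (M * x) * G c.natAbs ≤ VW w y * (G M * G x) * G c.natAbs :=
        mul_le_mul_of_nonneg_right (mul_le_mul_of_nonneg_left h6 hV.le) hGc.le
      have := mul_le_mul_of_nonneg_left this hI'
      linarith
    have h8 := mul_le_mul_of_nonneg_left h7 (hrg0 x)
    refine (add_le_add h8 h5).trans (le_of_eq ?_)
    ring
  refine (sum_le_sum hx).trans ?_
  rw [sum_add_distrib, ← mul_sum, sum_const, Nat.card_Icc, Nat.add_sub_cancel, nsmul_eq_mul]
  have hG := sum_G_le (K := K) hrc (w := w) hy1 (by omega : 2 ≤ z1) hyz hXr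
  have hcoef : 0 ≤ 2 * (((I2 : ℝ) - I1) * (VW w y * G M * G c.natAbs)) := by
    have : 0 ≤ VW w y * G M * G c.natAbs := by positivity
    positivity
  have hA := mul_le_mul_of_nonneg_left hG hcoef
  -- the error term
  have hz0 : (0 : ℝ) < z1 := by exact_mod_cast (by omega : 0 < z1)
  have hy0 : (0 : ℝ) < y := by exact_mod_cast hy1
  have hE : z * (z1 : ℝ) ^ (K * K) ≤ VW w y ^ 2 * ((I2 : ℝ) - I1) := by
    have h3 : (z1 : ℝ) ^ (K * K + 3) ≤ (I2 : ℝ) - I1 := by
      have h4 : ((z1 ^ (K * K + 3) : ℕ) : ℝ) ≤ ((I2 - I1 : ℕ) : ℝ) := by exact_mod_cast hIr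
      rw [Nat.cast_sub hI] at h4
      exact_mod_cast h4
    have h5 : (z : ℝ) ≤ z1 := by exact_mod_cast hzz
    have h6 : (y : ℝ) ≤ z1 := by exact_mod_cast hyz
    have h7 : (1 / (y : ℝ)) ^ 2 ≤ VW w y ^ 2 := pow_le_pow_left₀ (by positivity) hVi 2
    have h8 : z * (z1 : ℝ) ^ (K * K) * (y : ℝ) ^ 2 ≤ (I2 : ℝ) - I1 := by
      refine le_trans ?_ h3
      have e : (z1 : ℝ) ^ (K * K + 3) = z1 * (z1 : ℝ) ^ (K * K) * (z1 : ℝ) ^ 2 := by ring
      rw [e]
      refine mul_le_mul (mul_le_mul_of_nonneg_right h5 (by positivity))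
        (pow_le_pow_left₀ hy0.le h6 2) (by positivity) (by positivity)
    have h9 : z * (z1 : ℝ) ^ (K * K) = (1 / (y : ℝ)) ^ 2 * (z * (z1 : ℝ) ^ (K * K) * (y : ℝ) ^ 2) := by
      field_simp
    rw [h9]
    exact mul_le_mul h7 h8 (by positivity) (by positivity)
  have hX0 : (0 : ℝ) ≤ X := by positivity
  have hB1 := mul_le_mul_of_nonneg_left hE hX0
  have hfin1 : 2 * (((I2 : ℝ) - I1) * (VW w y * G M * G c.natAbs)) * (12 * (VW w y * X)) =
      24 * G c.natAbs * G M * VW w y ^ 2 * ((X : ℝ) * ((I2 : ℝ) - I1)) := by ring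
  rw [hfin1] at hA
  have hfin2 : (X : ℝ) * (VW w y ^ 2 * ((I2 : ℝ) - I1)) ≤
      G M * VW w y ^ 2 * ((X : ℝ) * ((I2 : ℝ) - I1)) := by
    have h3 : 0 ≤ VW w y ^ 2 * ((X : ℝ) * ((I2 : ℝ) - I1)) := by positivity
    have h4 := mul_le_mul_of_nonneg_right hGM h3
    linarith [h4]
  have hGdef : (M : ℝ) / Nat.totient M = G M := rfl
  rw [hGdef]
  have hfin3 : (24 * G c.natAbs + 1) * G M * VW w y ^ 2 * ((X : ℝ) * ((I2 : ℝ) - I1)) =
      24 * G c.natAbs * G M * VW w y ^ 2 * ((X : ℝ) * ((I2 : ℝ) - I1)) +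
        G M * VW w y ^ 2 * ((X : ℝ) * ((I2 : ℝ) - I1)) := by ring
  have hfin4 : (24 * G c.natAbs + 1) * G M * VW w y ^ 2 * ((X : ℝ) * ((I2 : ℝ) - I1)) ≤
      (24 * Real.exp (2 * ((max s0 1 : ℕ) + 1)) + 1) * G M * VW w y ^ 2 *
        ((X : ℝ) * ((I2 : ℝ) - I1)) := by
    have h3 : 0 ≤ G M * VW w y ^ 2 * ((X : ℝ) * ((I2 : ℝ) - I1)) := by positivity
    have h4 : 24 * G c.natAbs + 1 ≤ 24 * Real.exp (2 * ((max s0 1 : ℕ) + 1)) + 1 := by linarith
    have h5 := mul_le_mul_of_nonneg_right h4 h3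
    calc (24 * G c.natAbs + 1) * G M * VW w y ^ 2 * ((X : ℝ) * ((I2 : ℝ) - I1))
        = (24 * G c.natAbs + 1) * (G M * VW w y ^ 2 * ((X : ℝ) * ((I2 : ℝ) - I1))) := by ring
      _ ≤ _ := h5
      _ = _ := by ring
  refine le_trans ?_ hfin4
  rw [hfin3]
  linarith

end U1

end

end Pool.Agent.N49.QU
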